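import Mathlib
import Pool.Agent.R784.WT.Core

/-!
MP_e40715_an, Q1 (positive answer): for every `φ ∈ L^∞([0,1])` and every `α`, the weighted
translation operator `T_{φ,α}` on `L^p([0,1])` is not hypercyclic (every `p ≥ 1`).
Paper proof: helper286.
-/

open MeasureTheory Filter Topology Set
open scoped ENNReal

namespace Pool.Agent.Results.MP_e40715_an.WeightedTranslation

noncomputable section

/-- Lebesgue measure on `[0,1]`. -/
abbrev leb : Measure ℝ := volume.restrict (Icc (0 : ℝ) 1)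

/-- `T` is the weighted translation operator `T_{φ,α} f (x) = φ(x) f({x+α})` on `L^p([0,1])`. -/
def IsWeightedTranslation (p : ℝ≥0∞) [Fact (1 ≤ p)] (φ : ℝ → ℂ) (α : ℝ)
    (T : Lp ℂ p leb →L[ℂ] Lp ℂ p leb) : Prop :=
  ∀ f : Lp ℂ p leb, ∀ᵐ x ∂leb, T f x = φ x * f (Int.fract (x + α))

/-- A bounded operator is hypercyclic if some vector has a dense orbit. -/
def Hypercyclic {X : Type*} [NormedAddCommGroup X] [NormedSpace ℂ X] (T : X →L[ℂ] X) : Prop :=
  ∃ f : X, Dense (Set.range fun n : ℕ => (T ^ n) f)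

open Pool.Agent.R784.WT

/-- the representative in `[0,1)`. -/
def jj (y : G) : ℝ := (AddCircle.equivIco (1 : ℝ) 0 y : ℝ)

lemma jj_meas : Measurable jj :=
  measurable_subtype_coe.comp (AddCircle.measurableEquivIco (1 : ℝ) 0).measurable

lemma jj_mk (x : ℝ) : jj (x : G) = Int.fract x := by
  have := AddCircle.coe_equivIco_mk_apply (p := (1 : ℝ)) x
  simp [jj]

lemma mk_jj (y : G) : ((jj y : ℝ) : G) = y := AddCircle.coe_equivIco

lemma leb_eq : leb = volume.restrict (Ioc (0 : ℝ) (0 + 1)) := by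
  simp only [leb, zero_add]
  exact (Measure.restrict_congr_set Ioc_ae_eq_Icc).symm

lemma q_mp : MeasurePreserving (fun x : ℝ => (x : G)) leb (volume : Measure G) := by
  rw [leb_eq]
  exact AddCircle.measurePreserving_mk 1 0

lemma ae_fract : ∀ᵐ x ∂leb, Int.fract x = x := by
  have h1 : ∀ᵐ x ∂leb, x ∈ Icc (0 : ℝ) 1 := ae_restrict_mem measurableSet_Icc
  have h2 : ∀ᵐ x ∂leb, x ≠ (1 : ℝ) := by
    refine ae_restrict_of_ae ?_
    exact Measure.ae_ne volume 1
  filter_upwards [h1, h2] with x hx hne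
  exact Int.fract_eq_self.2 ⟨hx.1, lt_of_le_of_ne hx.2 hne⟩

lemma jj_mp : MeasurePreserving jj (volume : Measure G) leb := by
  refine ⟨jj_meas, ?_⟩
  rw [← q_mp.map_eq, Measure.map_map jj_meas q_mp.measurable]
  have : (jj ∘ fun x : ℝ => (x : G)) =ᵐ[leb] id := by
    filter_upwards [ae_fract] with x hx
    simp [jj_mk, hx]
  rw [Measure.map_congr this, Measure.map_id]

lemma R_mp (α : ℝ) : MeasurePreserving (fun x : ℝ => Int.fract (x + α)) leb leb := by
  have h := jj_mp.comp ((measurePreserving_add_right (volume : Measure G) (α : G)).comp q_mp)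
  convert h using 1
  funext x
  simp only [Function.comp]
  rw [← AddCircle.coe_add, jj_mk]

lemma exists_op (p : ℝ≥0∞) [Fact (1 ≤ p)] (φ : ℝ → ℂ) (hφ : MemLp φ ∞ leb) (α : ℝ) :
    ∃ T, IsWeightedTranslation p φ α T := by
  let M : Lp ℂ p leb →L[ℂ] Lp ℂ p leb :=
    (ContinuousLinearMap.mul ℂ ℂ).holderL leb ∞ p p (hφ.toLp φ)
  let R : Lp ℂ p leb →L[ℂ] Lp ℂ p leb :=
    (Lp.compMeasurePreservingₗᵢ ℂ _ (R_mp α)).toContinuousLinearMap
  refine ⟨M ∘L R, fun f => ?_⟩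
  have h1 : ∀ᵐ x ∂leb, M (R f) x = (hφ.toLp φ) x * (R f) x :=
    ContinuousLinearMap.coeFn_holder (ContinuousLinearMap.mul ℂ ℂ) (hφ.toLp φ) (R f)
  have h2 : ∀ᵐ x ∂leb, (R f) x = f (Int.fract (x + α)) :=
    Lp.coeFn_compMeasurePreserving f (R_mp α)
  filter_upwards [h1, h2, hφ.coeFn_toLp] with x hx1 hx2 hx3
  rw [ContinuousLinearMap.comp_apply, hx1, hx2, hx3]

lemma unique_op (p : ℝ≥0∞) [Fact (1 ≤ p)] (φ : ℝ → ℂ) (α : ℝ)
    (T S : Lp ℂ p leb →L[ℂ] Lp ℂ p leb) (hT : IsWeightedTranslation p φ α T)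
    (hS : IsWeightedTranslation p φ α S) : T = S := by
  ext1 f
  apply Lp.ext
  filter_upwards [hT f, hS f] with x h1 h2
  rw [h1, h2]

/-- formula for the powers, on the circle. -/
lemma pow_formula (p : ℝ≥0∞) [Fact (1 ≤ p)] (φ : ℝ → ℂ) (α : ℝ)
    (T : Lp ℂ p leb →L[ℂ] Lp ℂ p leb) (hT : IsWeightedTranslation p φ α T)
    (f : Lp ℂ p leb) (n : ℕ) :
    ∀ᵐ x ∂leb, ‖(T ^ n) f x‖ =
      Pr (fun y : G => ‖φ (jj y)‖) (α : G) n (x : G) * ‖f (jj ((x : G) + n • (α : G)))‖ := by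
  induction n with
  | zero =>
    filter_upwards [ae_fract] with x hx
    simp [Pr, jj_mk, hx]
  | succ n ih =>
    have h1 := hT ((T ^ n) f)
    have h2 := (R_mp α).quasiMeasurePreserving.ae ih
    filter_upwards [h1, h2, ae_fract] with x hx1 hx2 hx3
    have e : ((Int.fract (x + α) : ℝ) : G) = (x : G) + (α : G) := by
      rw [← AddCircle.coe_add, ← jj_mk, mk_jj]
    rw [pow_succ', mul_apply_eq_comp, hx1, norm_mul, hx2, e]
    rw [add_comm n 1, Pr_add, add_smul, one_smul, ← add_assoc]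
    simp only [Pr, Finset.range_one, Finset.prod_singleton, zero_smul, add_zero, jj_mk, hx3]
    ring

lemma ae_G {P : G → Prop} (h : ∀ᵐ (x : ℝ) ∂leb, P (x : G)) : ∀ᵐ y : G, P y := by
  have := jj_mp.quasiMeasurePreserving.ae h
  filter_upwards [this] with y hy
  rwa [mk_jj] at hy

instance (p : ℝ≥0∞) [Fact (1 ≤ p)] : Nontrivial (Lp ℂ p leb) := by
  have h0 : (leb : Measure ℝ) univ = 1 := by simp [leb]
  have : IsFiniteMeasure leb := ⟨by rw [h0]; exact ENNReal.one_lt_top⟩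
  refine ⟨⟨(memLp_const (1 : ℂ)).toLp (fun _ : ℝ => (1 : ℂ)), 0, fun h => ?_⟩⟩
  have h1 := (memLp_const (p := p) (μ := leb) (1 : ℂ)).coeFn_toLp
  rw [h] at h1
  have h2 := Lp.coeFn_zero ℂ p leb
  have h3 : ∀ᵐ x ∂leb, False := by
    filter_upwards [h1, h2] with x hx1 hx2
    rw [hx2] at hx1
    simp at hx1
  have h4 : leb univ = 0 := by
    have := ae_iff.1 h3
    simp at this
  rw [h0] at h4
  exact one_ne_zero h4

/-- **Q1 of MP_e40715_an.** Let `1 ≤ p ≤ ∞`, `φ ∈ L^∞([0,1])`, `α` real. Then there is exactly one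
bounded operator `T` on `L^p([0,1])` with `T f (x) = φ(x) f({x+α})` a.e., and it is not
hypercyclic. -/
theorem result (p : ℝ≥0∞) [Fact (1 ≤ p)] (φ : ℝ → ℂ) (hφ : MemLp φ ∞ leb)
    (α : ℝ) :
    (∃! T : Lp ℂ p leb →L[ℂ] Lp ℂ p leb, IsWeightedTranslation p φ α T) ∧
    ∀ T : Lp ℂ p leb →L[ℂ] Lp ℂ p leb, IsWeightedTranslation p φ α T → ¬ Hypercyclic T := by
  refine ⟨?_, ?_⟩
  · obtain ⟨T, hT⟩ := exists_op p φ hφ α
    exact ⟨T, hT, fun S hS => unique_op p φ α S T hS hT⟩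
  rintro T hT ⟨f, hf⟩
  have h0 : (leb : Measure ℝ) univ = 1 := by simp [leb]
  have : IsFiniteMeasure leb := ⟨by rw [h0]; exact ENNReal.one_lt_top⟩
  -- measurable representative of the weight
  obtain ⟨ψ, hψm, hψ⟩ := hφ.aestronglyMeasurable
  have hTψ : IsWeightedTranslation p ψ α T := by
    intro g
    filter_upwards [hT g, hψ] with x h1 h2
    rw [h1, h2]
  have : ∀ x : Lp ℂ p leb, NeBot (𝓝[≠] x) := fun x => Module.punctured_nhds_neBot ℝ _ x
  -- every vector is a limit along a subsequence of the orbit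
  have htail : ∀ N : ℕ, Dense ((fun n : ℕ => (T ^ n) f) '' {n | N < n}) := by
    intro N
    have hfin : ((fun n : ℕ => (T ^ n) f) '' (Iic N)).Finite := (finite_Iic N).image _
    have := hf.sdiff_finite hfin
    refine this.mono ?_
    rintro _ ⟨⟨n, rfl⟩, hn⟩
    refine ⟨n, ?_, rfl⟩
    by_contra hcon
    exact hn ⟨n, Set.mem_Iic.2 (not_lt.1 hcon), rfl⟩
  have hseq : ∀ g : Lp ℂ p leb, ∃ n : ℕ → ℕ, StrictMono n ∧
      Tendsto (fun k => (T ^ (n k)) f) atTop (𝓝 g) := by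
    intro g
    have hfr : ∀ k : ℕ, ∃ᶠ n in atTop, dist ((T ^ n) f) g < 1 / ((k : ℝ) + 1) := by
      intro k
      rw [frequently_atTop']
      intro N
      obtain ⟨_, ⟨n, hn, rfl⟩, hd⟩ := (htail N).exists_dist_lt g
        (show (0 : ℝ) < 1 / ((k : ℝ) + 1) by positivity)
      exact ⟨n, hn, by rw [dist_comm]; exact hd⟩
    obtain ⟨n, hn, hn2⟩ := extraction_forall_of_frequently hfr
    refine ⟨n, hn, ?_⟩
    rw [tendsto_iff_dist_tendsto_zero]
    exact squeeze_zero (fun _ => dist_nonneg) (fun k => (hn2 k).le)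
      tendsto_one_div_add_atTop_nhds_zero_nat
  have hfm : StronglyMeasurable (f : ℝ → ℂ) := Lp.stronglyMeasurable f
  refine core (Φ := fun y : G => ‖ψ (jj y)‖) (F := fun y : G => ‖f (jj y)‖) (α := (α : G))
    ((hψm.measurable.comp jj_meas).norm) ((hfm.measurable.comp jj_meas).norm)
    (fun _ => norm_nonneg _) (fun _ => norm_nonneg _) ?_
  rintro g hgm ⟨C, hC⟩
  -- the target on `[0,1]`
  have hGm : Measurable (fun x : ℝ => ((g (x : G) : ℝ) : ℂ)) :=
    Complex.measurable_ofReal.comp (hgm.comp AddCircle.measurable_mk')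
  have hGmem : MemLp (fun x : ℝ => ((g (x : G) : ℝ) : ℂ)) p leb := by
    refine MemLp.of_bound hGm.aestronglyMeasurable C (Eventually.of_forall fun x => ?_)
    rw [Complex.norm_real, Real.norm_eq_abs, abs_of_nonneg (by linarith [(hC (x : G)).1])]
    exact (hC _).2
  obtain ⟨n, hn, hlim⟩ := hseq (hGmem.toLp _)
  obtain ⟨s, hs, hs2⟩ := (tendstoInMeasure_of_tendsto_Lp hlim).exists_seq_tendsto_ae
  refine ⟨fun k => n (s k), hn.comp hs, ?_⟩
  apply ae_G
  have hpow : ∀ᵐ x ∂leb, ∀ k : ℕ, ‖(T ^ k) f x‖ =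
      Pr (fun y : G => ‖ψ (jj y)‖) (α : G) k (x : G) * ‖f (jj ((x : G) + k • (α : G)))‖ :=
    ae_all_iff.2 fun k => pow_formula p ψ α T hTψ f k
  filter_upwards [hs2, hpow, hGmem.coeFn_toLp] with x hx1 hx2 hx3
  have := hx1.norm
  rw [hx3, Complex.norm_real, Real.norm_eq_abs,
    abs_of_nonneg (by linarith [(hC (x : G)).1])] at this
  refine this.congr fun k => ?_
  exact hx2 (n (s k))

end

end Pool.Agent.Results.MP_e40715_an.WeightedTranslation
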